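import Pool.Agent.H484.AL.Stm

/-!
# MP_6b2836_nt: two linear conditions in two variables
-/

namespace Pool.Agent.H187.AL.PAIR2

open Finset
open scoped Classical

lemma fib_le (M : ℕ) [NeZero M] (D : ℤ) (κ : ZMod M) (k : ℕ) (hg : 0 < Nat.gcd D.natAbs M) :
    (univ.filter (fun s : ZMod M => (D : ZMod M) * s = (k : ZMod M) - κ)).card ≤
      if k ≡ κ.val [MOD (Nat.gcd D.natAbs M)] then Nat.gcd D.natAbs M else 0 := by
  set g := Nat.gcd D.natAbs M with hgdef
  by_cases hne : ∃ s : ZMod M, (D : ZMod M) * s = (k : ZMod M) - κ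
  · obtain ⟨s0, hs0⟩ := hne
    have hmod : k ≡ κ.val [MOD g] := by
      have h1 : ((D * (s0.val : ℤ) - ((k : ℤ) - (κ.val : ℤ)) : ℤ) : ZMod M) = 0 := by
        push_cast
        rw [ZMod.natCast_zmod_val, ZMod.natCast_zmod_val, hs0, sub_self]
      have h2 : (M : ℤ) ∣ D * (s0.val : ℤ) - ((k : ℤ) - (κ.val : ℤ)) :=
        (ZMod.intCast_zmod_eq_zero_iff_dvd _ M).1 h1
      have h3 : (g : ℤ) ∣ (M : ℤ) := Int.natCast_dvd_natCast.2 (Nat.gcd_dvd_right _ _)
      have h4 : (g : ℤ) ∣ D := Int.natCast_dvd.2 (Nat.gcd_dvd_left _ _)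
      have h5 : (g : ℤ) ∣ (k : ℤ) - (κ.val : ℤ) := by
        have h6 := (h4.mul_right (s0.val : ℤ)).sub (h3.trans h2)
        have h7 : D * (s0.val : ℤ) - (D * (s0.val : ℤ) - ((k : ℤ) - (κ.val : ℤ))) =
            (k : ℤ) - (κ.val : ℤ) := by ring
        rwa [h7] at h6
      exact ((Nat.modEq_iff_dvd).2 h5).symm
    rw [if_pos hmod]
    have hker : ∀ t : ZMod M, (D : ZMod M) * t = 0 → g • t = 0 := by
      intro t ht
      have hb : ((g : ℤ) : ZMod M) = ((D.natAbs : ℤ) : ZMod M) * ((Nat.gcdA D.natAbs M : ℤ) : ZMod M) := by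
        have := Nat.gcd_eq_gcd_ab D.natAbs M
        rw [hgdef, this]
        push_cast
        simp
      have hD' : ((D.natAbs : ℤ) : ZMod M) * t = 0 := by
        rcases Int.natAbs_eq D with h | h
        · rw [← h]; exact ht
        · have h' : ((D.natAbs : ℤ)) = -D := by linarith
          rw [h']
          push_cast
          rw [neg_mul, ht, neg_zero]
      have hb' : (g : ZMod M) = ((D.natAbs : ℤ) : ZMod M) * ((Nat.gcdA D.natAbs M : ℤ) : ZMod M) := by
        rw [← hb]; push_cast; rfl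
      rw [nsmul_eq_mul, hb', mul_right_comm, hD', zero_mul]
    refine le_trans ?_ (IsAddCyclic.card_nsmul_eq_zero_le (α := ZMod M) hg)
    refine Finset.card_le_card_of_injOn (fun s => s - s0) ?_ ?_
    · intro s hs
      simp only [Finset.coe_filter, Finset.mem_univ, true_and, Set.mem_ofPred_eq] at hs ⊢
      apply hker
      rw [mul_sub, hs, hs0, sub_self]
    · intro s _ s' _ h
      simpa using h
  · have h0 : (univ.filter (fun s : ZMod M => (D : ZMod M) * s = (k : ZMod M) - κ)).card = 0 := by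
      rw [Finset.card_eq_zero, Finset.filter_eq_empty_iff]
      intro s _ hs
      exact hne ⟨s, hs⟩
    rw [h0]
    exact Nat.zero_le _

lemma one (M : ℕ) [NeZero M] (a0 : ℕ) (ha : Nat.Coprime a0 M) (D : ℤ) (hD : D ≠ 0) (Dm : ℕ)
    (hDm : |D| ≤ (Dm : ℤ)) (A L : ℕ) (e : ZMod M) :
    (univ.filter (fun s : ZMod M => ∃ k : ℕ, A < k ∧ k ≤ A + L ∧
      (a0 : ZMod M) * ((k : ZMod M) - (D : ZMod M) * s) + e = 0)).card ≤ L + Dm := by
  set g := Nat.gcd D.natAbs M with hgdef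
  have hg : 0 < g := Nat.gcd_pos_of_pos_right _ (Nat.pos_of_ne_zero (NeZero.ne M))
  have hgD : g ≤ Dm := by
    have h1 : g ≤ D.natAbs := Nat.le_of_dvd (Int.natAbs_pos.2 hD) (Nat.gcd_dvd_left _ _)
    have h2 : (D.natAbs : ℤ) ≤ (Dm : ℤ) := by rw [Int.natCast_natAbs]; exact hDm
    exact h1.trans (by exact_mod_cast h2)
  let u : (ZMod M)ˣ := ZMod.unitOfCoprime a0 ha
  have hu : ((u⁻¹ : (ZMod M)ˣ) : ZMod M) * (a0 : ZMod M) = 1 := by
    have := u.inv_mul
    rwa [ZMod.coe_unitOfCoprime] at this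
  set κ : ZMod M := -(((u⁻¹ : (ZMod M)ˣ) : ZMod M) * e) with hκ
  have hsub : (univ.filter (fun s : ZMod M => ∃ k : ℕ, A < k ∧ k ≤ A + L ∧
      (a0 : ZMod M) * ((k : ZMod M) - (D : ZMod M) * s) + e = 0)) ⊆
      (Finset.Ioc A (A + L)).biUnion (fun k =>
        univ.filter (fun s : ZMod M => (D : ZMod M) * s = (k : ZMod M) - κ)) := by
    intro s hs
    rw [Finset.mem_filter] at hs
    obtain ⟨-, k, hk1, hk2, hk⟩ := hs
    rw [Finset.mem_biUnion]
    refine ⟨k, Finset.mem_Ioc.2 ⟨hk1, hk2⟩, ?_⟩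
    rw [Finset.mem_filter]
    refine ⟨Finset.mem_univ _, ?_⟩
    have h1 : ((u⁻¹ : (ZMod M)ˣ) : ZMod M) *
        ((a0 : ZMod M) * ((k : ZMod M) - (D : ZMod M) * s) + e) = 0 := by rw [hk, mul_zero]
    rw [mul_add, ← mul_assoc, hu, one_mul] at h1
    rw [hκ]
    linear_combination -h1
  have hcount : g * (((Finset.Ioc A (A + L)).filter (fun k => k ≡ κ.val [MOD g])).card) ≤ L + g := by
    have h := Nat.Ioc_filter_modEq_card A (A + L) hg κ.val
    have hgQ : (0 : ℚ) < (g : ℚ) := by exact_mod_cast hg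
    have hfl1 := Int.floor_le (((A + L : ℕ) - (κ.val : ℕ) : ℚ) / (g : ℚ))
    have hfl2 := Int.lt_floor_add_one (((A : ℕ) - (κ.val : ℕ) : ℚ) / (g : ℚ))
    have hX : ((⌊(((A + L : ℕ) - (κ.val : ℕ) : ℚ) / (g : ℚ))⌋ -
        ⌊(((A : ℕ) - (κ.val : ℕ) : ℚ) / (g : ℚ))⌋ : ℤ) : ℚ) * (g : ℚ) ≤ (L : ℚ) + g := by
      have e1 : ((((A + L : ℕ) - (κ.val : ℕ) : ℚ) / (g : ℚ))) * g = (A : ℚ) + L - κ.val := by
        push_cast
        field_simp
      have e2 : ((((A : ℕ) - (κ.val : ℕ) : ℚ) / (g : ℚ))) * g = (A : ℚ) - κ.val := by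
        field_simp
      have h3 := mul_le_mul_of_nonneg_right hfl1 hgQ.le
      have h4 := mul_le_mul_of_nonneg_right hfl2.le hgQ.le
      rw [e1] at h3
      rw [e2, add_mul, one_mul] at h4
      rw [Int.cast_sub, sub_mul]
      linarith
    have hX' : ((g : ℤ) * (((Finset.Ioc A (A + L)).filter (fun k => k ≡ κ.val [MOD g])).card : ℤ)) ≤
        (L : ℤ) + g := by
      rw [h]
      rcases max_choice (⌊(((A + L : ℕ) - (κ.val : ℕ) : ℚ) / (g : ℚ))⌋ -
        ⌊(((A : ℕ) - (κ.val : ℕ) : ℚ) / (g : ℚ))⌋) 0 with hm | hm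
      · rw [hm]
        have : (((g : ℤ) * (⌊(((A + L : ℕ) - (κ.val : ℕ) : ℚ) / (g : ℚ))⌋ -
            ⌊(((A : ℕ) - (κ.val : ℕ) : ℚ) / (g : ℚ))⌋) : ℤ) : ℚ) ≤ (((L : ℤ) + g : ℤ) : ℚ) := by
          rw [Int.cast_mul, mul_comm, Int.cast_natCast]
          refine hX.trans (le_of_eq ?_)
          rw [Int.cast_add, Int.cast_natCast, Int.cast_natCast]
        exact_mod_cast this
      · rw [hm, mul_zero]
        positivity
    exact_mod_cast hX'
  calc (univ.filter (fun s : ZMod M => ∃ k : ℕ, A < k ∧ k ≤ A + L ∧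
      (a0 : ZMod M) * ((k : ZMod M) - (D : ZMod M) * s) + e = 0)).card
      ≤ ((Finset.Ioc A (A + L)).biUnion (fun k =>
        univ.filter (fun s : ZMod M => (D : ZMod M) * s = (k : ZMod M) - κ))).card :=
        Finset.card_le_card hsub
    _ ≤ ∑ k ∈ Finset.Ioc A (A + L),
        (univ.filter (fun s : ZMod M => (D : ZMod M) * s = (k : ZMod M) - κ)).card :=
        Finset.card_biUnion_le
    _ ≤ ∑ k ∈ Finset.Ioc A (A + L), (if k ≡ κ.val [MOD g] then g else 0) :=
        Finset.sum_le_sum fun k _ => fib_le M D κ k hg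
    _ = g * (((Finset.Ioc A (A + L)).filter (fun k => k ≡ κ.val [MOD g])).card) := by
        rw [← Finset.sum_filter, Finset.sum_const, smul_eq_mul, mul_comm]
    _ ≤ L + g := hcount
    _ ≤ L + Dm := by omega

/-- the double count in `ZMod M` -/
lemma dbl (M : ℕ) [NeZero M] (a0 : ℕ) (ha : Nat.Coprime a0 M) (c c' p q p' q' : ℤ)
    (A L A' L' Dm : ℕ) (hD : p * q' - q * p' ≠ 0) (hDm : |p * q' - q * p'| ≤ (Dm : ℤ)) :
    (univ.filter (fun z : ZMod M × ZMod M =>
      (∃ k : ℕ, A < k ∧ k ≤ A + L ∧ (a0 : ZMod M) * (k : ZMod M) + c + p * z.1 + q * z.2 = 0) ∧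
      (∃ k : ℕ, A' < k ∧ k ≤ A' + L' ∧
        (a0 : ZMod M) * (k : ZMod M) + c' + p' * z.1 + q' * z.2 = 0))).card
      ≤ (L + Dm) * (L' + Dm) := by
  set P : ZMod M × ZMod M → Prop := fun z =>
      (∃ k : ℕ, A < k ∧ k ≤ A + L ∧ (a0 : ZMod M) * (k : ZMod M) + c + p * z.1 + q * z.2 = 0) ∧
      (∃ k : ℕ, A' < k ∧ k ≤ A' + L' ∧
        (a0 : ZMod M) * (k : ZMod M) + c' + p' * z.1 + q' * z.2 = 0) with hP
  let w : ZMod M × ZMod M → ZMod M × ZMod M := fun s =>
    (-(a0 : ZMod M) * (q' * s.1 - q * s.2), -(a0 : ZMod M) * (-(p' : ZMod M) * s.1 + p * s.2))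
  have hMpos : 0 < Fintype.card (ZMod M × ZMod M) := Fintype.card_pos
  have hrow : ∀ z : ZMod M × ZMod M,
      (univ.filter (fun s : ZMod M × ZMod M => P (z + w s))).card ≤ (L + Dm) * (L' + Dm) := by
    intro z
    have hsub : (univ.filter (fun s : ZMod M × ZMod M => P (z + w s))) ⊆
        (univ.filter (fun s : ZMod M => ∃ k : ℕ, A < k ∧ k ≤ A + L ∧
          (a0 : ZMod M) * ((k : ZMod M) - ((p * q' - q * p' : ℤ) : ZMod M) * s) +
            (c + p * z.1 + q * z.2) = 0)) ×ˢ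
        (univ.filter (fun s : ZMod M => ∃ k : ℕ, A' < k ∧ k ≤ A' + L' ∧
          (a0 : ZMod M) * ((k : ZMod M) - ((p * q' - q * p' : ℤ) : ZMod M) * s) +
            (c' + p' * z.1 + q' * z.2) = 0)) := by
      intro s hs
      rw [Finset.mem_filter] at hs
      obtain ⟨-, ⟨k, hk1, hk2, hk⟩, ⟨k', hk1', hk2', hk'⟩⟩ := hs
      rw [Finset.mem_product, Finset.mem_filter, Finset.mem_filter]
      refine ⟨⟨Finset.mem_univ _, k, hk1, hk2, ?_⟩, ⟨Finset.mem_univ _, k', hk1', hk2', ?_⟩⟩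
      · rw [← hk]
        simp only [w, Prod.fst_add, Prod.snd_add]
        push_cast
        ring
      · rw [← hk']
        simp only [w, Prod.fst_add, Prod.snd_add]
        push_cast
        ring
    calc (univ.filter (fun s : ZMod M × ZMod M => P (z + w s))).card ≤ _ :=
          Finset.card_le_card hsub
      _ ≤ (L + Dm) * (L' + Dm) := by
          rw [Finset.card_product]
          exact Nat.mul_le_mul (one M a0 ha _ hD Dm hDm A L _) (one M a0 ha _ hD Dm hDm A' L' _)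
  have hcol : ∀ s : ZMod M × ZMod M,
      (univ.filter (fun z : ZMod M × ZMod M => P (z + w s))).card = (univ.filter P).card := by
    intro s
    refine Finset.card_bij (fun z _ => z + w s) ?_ ?_ ?_
    · intro z hz
      rw [Finset.mem_filter] at hz ⊢
      exact ⟨Finset.mem_univ _, hz.2⟩
    · intro z _ z' _ h
      exact add_right_cancel h
    · intro z hz
      rw [Finset.mem_filter] at hz
      refine ⟨z - w s, ?_, sub_add_cancel _ _⟩
      rw [Finset.mem_filter]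
      refine ⟨Finset.mem_univ _, ?_⟩
      rw [sub_add_cancel]
      exact hz.2
  have hdc : ∑ z : ZMod M × ZMod M, (univ.filter (fun s : ZMod M × ZMod M => P (z + w s))).card =
      ∑ s : ZMod M × ZMod M, (univ.filter (fun z : ZMod M × ZMod M => P (z + w s))).card := by
    simp only [Finset.card_filter]
    exact Finset.sum_comm
  have h1 : Fintype.card (ZMod M × ZMod M) * (univ.filter P).card ≤
      Fintype.card (ZMod M × ZMod M) * ((L + Dm) * (L' + Dm)) := by
    calc Fintype.card (ZMod M × ZMod M) * (univ.filter P).card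
        = ∑ s : ZMod M × ZMod M,
          (univ.filter (fun z : ZMod M × ZMod M => P (z + w s))).card := by
          simp only [hcol, Finset.sum_const, smul_eq_mul, Finset.card_univ]
      _ = ∑ z : ZMod M × ZMod M,
          (univ.filter (fun s : ZMod M × ZMod M => P (z + w s))).card := hdc.symm
      _ ≤ ∑ _z : ZMod M × ZMod M, ((L + Dm) * (L' + Dm)) := Finset.sum_le_sum fun z _ => hrow z
      _ = Fintype.card (ZMod M × ZMod M) * ((L + Dm) * (L' + Dm)) := by
          simp only [Finset.sum_const, smul_eq_mul, Finset.card_univ]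
  exact Nat.le_of_mul_le_mul_left h1 hMpos

end Pool.Agent.H187.AL.PAIR2

open Pool.Agent.H187.AL.PAIR2 in
open Finset in
open scoped Classical in
theorem Pool.Agent.H484.AL.t_PAIR2 : Pool.Agent.H484.AL.S_PAIR2 := by
  intro M a0 c c' p q p' q' A L A' L' Dm hM ha hD hDm
  have hne : NeZero M := ⟨by omega⟩
  refine le_trans ?_ (dbl M a0 ha c c' p q p' q' A L A' L' Dm hD hDm)
  refine Finset.card_le_card_of_injOn (fun z => ((z.1 : ZMod M), (z.2 : ZMod M))) ?_ ?_
  · intro z hz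
    rw [Finset.mem_coe, Finset.mem_filter] at hz ⊢
    obtain ⟨-, ⟨k, hk1, hk2, hk⟩, ⟨k', hk1', hk2', hk'⟩⟩ := hz
    refine ⟨Finset.mem_univ _, ⟨k, hk1, hk2, ?_⟩, ⟨k', hk1', hk2', ?_⟩⟩
    · have := (ZMod.intCast_zmod_eq_zero_iff_dvd _ M).2 hk
      push_cast at this
      exact this
    · have := (ZMod.intCast_zmod_eq_zero_iff_dvd _ M).2 hk'
      push_cast at this
      exact this
  · intro z hz z' hz' h
    rw [Finset.mem_coe, Finset.mem_filter, Finset.mem_product, Finset.mem_range,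
      Finset.mem_range] at hz hz'
    simp only [Prod.mk.injEq] at h
    have h1 := (ZMod.natCast_eq_natCast_iff' _ _ _).1 h.1
    have h2 := (ZMod.natCast_eq_natCast_iff' _ _ _).1 h.2
    rw [Nat.mod_eq_of_lt hz.1.1, Nat.mod_eq_of_lt hz'.1.1] at h1
    rw [Nat.mod_eq_of_lt hz.1.2, Nat.mod_eq_of_lt hz'.1.2] at h2
    exact Prod.ext h1 h2
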